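import Pool.Agent.H97.HV.Targets
import Pool.Agent.H10.PRK.GCX

/-!
# Board hov_modules (MP_e37c09_lc), row GCN (helper40)
-/

open Ordinal Cardinal Order Set
open scoped ZFSet

universe u

namespace Pool.Agent.H40.HV

open _root_.HD HD.PRK HD.HV
open Pool.Agent.H10.PRK (gcx_null gcx_pos)

/-- sets of ordinals which are definable from a set with `PV` -/
theorem pv_os (h0 : T_PVA.{u}) {γ : Ordinal.{u}} (hγ : IsSuccLimit γ) {x : ZFSet.{u}}
    (hx : PV γ x) {Q : (ℕ → ZFSet.{u}) → Prop} (hQ : DZ Q) (κ : Ordinal.{u})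
    {X : Set Ordinal.{u}} (hX : ∀ a : Ordinal.{u}, a ∈ X ↔ Q (cons a.toZFSet fun _ => x)) :
    PV γ (os κ X) := by
  refine h0.2.2.1 γ hγ x x (os κ X) hx hx ?_
  refine Pool.Agent.H45.NF.ODp.of_dz (Q := fun v => ∃ p, v 1 = ZFSet.pair p p ∧
    ∀ z, z ∈ v 0 ↔ z ∈ κ.toZFSet ∧ Q (cons z fun _ => p)) ?_ fun y => ?_
  · refine DZ.ex (R := fun p v => v 1 = ZFSet.pair p p ∧
      ∀ z, z ∈ v 0 ↔ z ∈ κ.toZFSet ∧ Q (cons z fun _ => p)) ?_
    refine ((loc_pair 2 0 0).dz).and ?_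
    refine DZ.all (R := fun z v => z ∈ v 1 ↔ z ∈ κ.toZFSet ∧ Q (cons z fun _ => v 0)) ?_
    refine (DZ.mem 0 2).iff ((DZ.sub (R := fun k v => v 0 ∈ k) (DZ.eqOrd κ 0)
      (DZ.mem 1 0)).and ?_)
    refine (hQ.ren fun n => if n = 0 then 0 else 1).congr fun v => ?_
    have : (cons (v 0) fun _ => v 1) = fun n => v (if n = 0 then 0 else 1) := by
      funext n
      rcases n with _ | n <;> simp
    rw [← this]
  · show (∃ p, ZFSet.pair x x = ZFSet.pair p p ∧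
      ∀ z, z ∈ y ↔ z ∈ κ.toZFSet ∧ Q (cons z fun _ => p)) ↔ y = os κ X
    constructor
    · rintro ⟨p, hp, h⟩
      obtain ⟨rfl, -⟩ := ZFSet.pair_injective hp
      ext z
      rw [h, mem_os]
      constructor
      · rintro ⟨hz, hq⟩
        obtain ⟨a, ha, rfl⟩ := mem_toZFSet_iff.1 hz
        exact ⟨a, ha, (hX a).2 hq, rfl⟩
      · rintro ⟨a, ha, haX, rfl⟩
        exact ⟨toZFSet_mem_toZFSet_iff.2 ha, (hX a).1 haX⟩
    · rintro rfl
      refine ⟨x, rfl, fun z => ?_⟩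
      rw [mem_os]
      constructor
      · rintro ⟨a, ha, haX, rfl⟩
        exact ⟨toZFSet_mem_toZFSet_iff.2 ha, (hX a).1 haX⟩
      · rintro ⟨hz, hq⟩
        obtain ⟨a, ha, rfl⟩ := mem_toZFSet_iff.1 hz
        exact ⟨a, ha, (hX a).2 hq, rfl⟩

/-- the atom decides these sets -/
theorem gcn_ult (h0 : T_PVA.{u}) (h1 : T_DEC.{u}) {en : Ordinal.{u} → ZFSet.{u}} (hen : EN en)
    {M K : Cardinal.{u}} (hK : K.IsRegular) (hK0 : ℵ₀ < K) {γ : Ordinal.{u}} (hf : Fit γ K)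
    {c : Ordinal.{u}} (hat : Atom en M.ord K.ord c) {x : ZFSet.{u}} (hx : PV γ x)
    {Q : (ℕ → ZFSet.{u}) → Prop} (hQ : DZ Q) {X : Set Ordinal.{u}}
    (hX : ∀ a : Ordinal.{u}, a ∈ X ↔ Q (cons a.toZFSet fun _ => x)) :
    ¬ Pos M.ord K.ord (E en c ∩ X) ∨ ¬ Pos M.ord K.ord (E en c \ X) := by
  have h := h1 en hen M K hK hK0 c hat γ hf (os K.ord X) (pv_os h0 hf.lim hx hQ K.ord hX)
  rw [not_and_or] at h
  refine h.imp (fun h2 h3 => h2 ?_) (fun h2 h3 => h2 ?_)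
  · refine h3.mono fun b hb hbX _ => ⟨hbX.1, ?_⟩
    exact ord_mem_os.2 ⟨hb, hbX.2⟩
  · refine h3.mono fun b hb hbX _ => ⟨hbX.1, fun h4 => hbX.2 ?_⟩
    exact (ord_mem_os.1 h4).2

theorem pf_GCN (h0 : T_PVA.{u}) (h1 : T_DEC.{u}) : T_GCN.{u} := by
  intro en hen M K hK hK0 γ hf hVE c hat
  obtain ⟨C1, e, hV⟩ := hVE
  have hpv : ∀ z, PV γ (e z) := by
    intro z
    have h2 := (hV.he z).1
    rw [min_eq_left hf.le] at h2
    exact h2.self
  have hult := fun (z : Ordinal.{u}) {Q : (ℕ → ZFSet.{u}) → Prop} (hQ : DZ Q)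
    {X : Set Ordinal.{u}} (hX : ∀ a : Ordinal.{u}, a ∈ X ↔ Q (cons a.toZFSet fun _ => e z)) =>
      gcn_ult h0 h1 hen hK hK0 hf hat (hpv z) hQ hX
  -- normalisation
  have hN : ∀ z, ∃ C, z < K.ord → Clb K.ord C ∧
      ((∃ n0 : Ordinal.{u}, ∀ a ∈ C, a ∈ E en c → Cf M.ord a → a < K.ord →
        n0 < a ∧ ZFSet.pair a.toZFSet n0.toZFSet ∈ e z ∧
          ∀ n < n0, ZFSet.pair a.toZFSet n.toZFSet ∉ e z) ∨
      ∀ a ∈ C, a ∈ E en c → Cf M.ord a → a < K.ord →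
        ∀ n < a, ZFSet.pair a.toZFSet n.toZFSet ∉ e z) := by
    intro z
    have hX := hult z (Q := fun v => ∃ n ∈ v 0, ZFSet.pair (v 0) n ∈ v 1)
      (X := {a | ∃ n < a, ZFSet.pair a.toZFSet n.toZFSet ∈ e z})
      (DZ.exMem (R := fun n v => ZFSet.pair (v 0) n ∈ v 1) 0 (loc_pmem 1 0 2).dz) (by
        intro a
        show (∃ n < a, ZFSet.pair a.toZFSet n.toZFSet ∈ e z) ↔
          ∃ n ∈ a.toZFSet, ZFSet.pair a.toZFSet n ∈ e z
        constructor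
        · rintro ⟨n, hn, h⟩
          exact ⟨n.toZFSet, toZFSet_mem_toZFSet_iff.2 hn, h⟩
        · rintro ⟨n, hn, h⟩
          obtain ⟨b, hb, rfl⟩ := mem_toZFSet_iff.1 hn
          exact ⟨b, hb, h⟩)
    rcases hX with h | h
    · obtain ⟨C0, hC0, h0⟩ := gcx_null h
      refine ⟨C0, fun _ => ⟨hC0, Or.inr fun a ha hac hcf haK n hn hmem => ?_⟩⟩
      exact h0 a haK ha hcf ⟨hac, n, hn, hmem⟩
    · have hp : Pos M.ord K.ord (E en c ∩ {a | ∃ n < a, ZFSet.pair a.toZFSet n.toZFSet ∈ e z}) :=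
        (gcx_pos hK hK0 hat).resolve_right h
      obtain ⟨n0, -, hn0⟩ := All.vd M.ord K hK hK0 _
        (fun b => sInf {n : Ordinal.{u} | ZFSet.pair b.toZFSet n.toZFSet ∈ e z}) hp (by
          rintro b ⟨-, n, hn, hmem⟩ _ _
          exact lt_of_le_of_lt (csInf_le' hmem) hn)
      have hY := hult z (Q := fun v => n0.toZFSet ∈ v 0 ∧ ZFSet.pair (v 0) n0.toZFSet ∈ v 1 ∧
          ∀ n ∈ n0.toZFSet, ZFSet.pair (v 0) n ∉ v 1)
        (X := {b | n0 < b ∧ ZFSet.pair b.toZFSet n0.toZFSet ∈ e z ∧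
          ∀ n < n0, ZFSet.pair b.toZFSet n.toZFSet ∉ e z}) (by
          refine DZ.sub (R := fun k v => k ∈ v 0 ∧ ZFSet.pair (v 0) k ∈ v 1 ∧
            ∀ n ∈ k, ZFSet.pair (v 0) n ∉ v 1) (DZ.eqOrd n0 0) ?_
          refine (DZ.mem 0 1).and ((loc_pmem 1 0 2).dz.and ?_)
          exact DZ.allMem (R := fun n v => ZFSet.pair (v 1) n ∉ v 2) 0
            (loc_pmem 2 0 3).dz.not) (by
          intro b
          show (n0 < b ∧ ZFSet.pair b.toZFSet n0.toZFSet ∈ e z ∧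
            ∀ n < n0, ZFSet.pair b.toZFSet n.toZFSet ∉ e z) ↔
            n0.toZFSet ∈ b.toZFSet ∧ ZFSet.pair b.toZFSet n0.toZFSet ∈ e z ∧
            ∀ n ∈ n0.toZFSet, ZFSet.pair b.toZFSet n ∉ e z
          rw [toZFSet_mem_toZFSet_iff]
          refine and_congr_right fun _ => and_congr_right fun _ => ?_
          constructor
          · intro h n hn
            obtain ⟨m, hm, rfl⟩ := mem_toZFSet_iff.1 hn
            exact h m hm
          · intro h n hn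
            exact h n.toZFSet (toZFSet_mem_toZFSet_iff.2 hn))
      have hp2 : Pos M.ord K.ord (E en c ∩
          {b | n0 < b ∧ ZFSet.pair b.toZFSet n0.toZFSet ∈ e z ∧
            ∀ n < n0, ZFSet.pair b.toZFSet n.toZFSet ∉ e z}) := by
        refine hn0.mono ?_
        rintro b _ ⟨⟨hbc, n, hn, hmem⟩, hb⟩ _
        have hb' : sInf {n : Ordinal.{u} | ZFSet.pair b.toZFSet n.toZFSet ∈ e z} = n0 := hb
        refine ⟨hbc, ?_, ?_, fun m hm hmm => ?_⟩
        · rw [← hb']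
          exact lt_of_le_of_lt (csInf_le' hmem) hn
        · rw [← hb']
          exact csInf_mem (s := {n : Ordinal.{u} | ZFSet.pair b.toZFSet n.toZFSet ∈ e z})
            ⟨n, hmem⟩
        · rw [← hb'] at hm
          exact absurd hm (not_lt.2 (csInf_le' hmm))
      obtain ⟨C0, hC0, h0⟩ := gcx_null (hY.resolve_left (not_not.2 hp2))
      refine ⟨C0, fun _ => ⟨hC0, Or.inl ⟨n0, fun a ha hac hcf haK => ?_⟩⟩⟩
      by_contra hcon
      exact h0 a haK ha hcf ⟨hac, hcon⟩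
  choose CN hCN using hN
  -- decision
  have hD : ∀ z n : Ordinal.{u}, ∃ C, Clb K.ord C ∧ ∀ a ∈ C, a ∈ E en c → Cf M.ord a →
      a < K.ord → (ZFSet.pair n.toZFSet a.toZFSet ∈ e z ↔
        ¬ Pos M.ord K.ord {b | b ∈ E en c ∧ ZFSet.pair n.toZFSet b.toZFSet ∉ e z}) := by
    intro z n
    have hS := hult z (Q := fun v => ZFSet.pair n.toZFSet (v 0) ∈ v 1)
      (X := {b | ZFSet.pair n.toZFSet b.toZFSet ∈ e z})
      (DZ.sub (R := fun k v => ZFSet.pair k (v 0) ∈ v 1) (DZ.eqOrd n 0) (loc_pmem 0 1 2).dz)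
      (fun a => Iff.rfl)
    rcases hS with h | h
    · have hp : Pos M.ord K.ord (E en c \ {b | ZFSet.pair n.toZFSet b.toZFSet ∈ e z}) :=
        (gcx_pos hK hK0 hat).resolve_left h
      obtain ⟨C0, hC0, h0⟩ := gcx_null h
      refine ⟨C0, hC0, fun a ha hac hcf haK => ?_⟩
      constructor
      · intro hmem
        exact absurd ⟨hac, hmem⟩ (h0 a haK ha hcf)
      · intro hn
        exact absurd hp hn
    · obtain ⟨C0, hC0, h0⟩ := gcx_null h
      refine ⟨C0, hC0, fun a ha hac hcf haK => ?_⟩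
      constructor
      · intro _
        exact h
      · intro _
        by_contra hcon
        exact h0 a haK ha hcf ⟨hac, hcon⟩
  choose CD hCD hCD' using hD
  have hd1 := Pool.Agent.H33.HD.VD.diag hK hK0 CN fun z hz => (hCN z hz).1
  have hd2 := Pool.Agent.H33.HD.VD.diag hK hK0
    (fun z => {x | 0 < x ∧ ∀ n < x, x ∈ CD z n}) fun z _ =>
      Pool.Agent.H33.HD.VD.diag hK hK0 (CD z) fun n _ => hCD z n
  have hI := Pool.Agent.H54.CL.clb_inter hK0 hK hV.clb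
    (Pool.Agent.H54.CL.clb_inter hK0 hK hd1 hd2)
  refine ⟨C1 ∩ ({x | 0 < x ∧ ∀ a < x, x ∈ CN a} ∩
    {x | 0 < x ∧ ∀ a < x, x ∈ {x | 0 < x ∧ ∀ n < x, x ∈ CD a n}}), e, ?_⟩
  exact {
    hen := hen
    fit := hf
    kreg := hK
    kunc := hK0
    atom := hat
    ve := {
      clb := hI
      lim := fun ξ hξ hξK => hV.lim ξ hξ.1 hξK
      he := hV.he
      onto := hV.onto
      tr := fun ξ hξ hξK => hV.tr ξ hξ.1 hξK
      par := fun ξ hξ hξK => hV.par ξ hξ.1 hξK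
      emb := fun ξ hξ hξK => hV.emb ξ hξ.1 hξK }
    nrm := by
      intro z hz
      rcases (hCN z hz).2 with ⟨n0, h⟩ | h
      · exact Or.inl ⟨n0, fun a ha hac hcf hza haK => h a (ha.2.1.2 z hza) hac hcf haK⟩
      · exact Or.inr fun a ha hac hcf hza haK => h a (ha.2.1.2 z hza) hac hcf haK
    dec := by
      intro z _ n _ a ha hac hcf hza hna haK
      exact hCD' z n a ((ha.2.2.2 z hza).2 n hna) hac hcf haK }

end Pool.Agent.H40.HV
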